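import Pool.Agent.H11.NY.Targets

/-!
# Board `ny_modules`, module PA
-/

set_option autoImplicit false

open Equiv (Perm)

namespace Pool.Agent.H65.NY.PA

open Pool.Agent.H11.NY

/-- consequences of `HPair` used below -/
theorem hpair_facts {L Ω : Type} [Group L] [Fintype Ω] [DecidableEq Ω]
    (ψ : L →* alternatingGroup Ω) {e B q p : ℕ} {a h : L} (H : HPair ψ e B q p a h) :
    B ≤ (ψ a : Perm Ω).support.card ∧
      ∀ κ : ℕ, B ≤ (ψ (h * a ^ κ) : Perm Ω).support.card := by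
  obtain ⟨hq, hq5, hqe, hp, hpe, haq, hcomm, hhp, ha1, hz, hB⟩ := H
  constructor
  · have := hB 1 0
    rw [pow_one, pow_zero, mul_one] at this
    exact this ha1
  · intro κ
    have h1 : h * a ^ κ = a ^ κ * h ^ 1 := by
      rw [pow_one]
      exact ((Commute.pow_left (show Commute a h from hcomm) κ).eq).symm
    rw [h1]
    apply hB
    rw [← h1]
    intro h2
    apply hz
    rw [Subgroup.mem_zpowers_iff]
    refine ⟨-(κ : ℤ), ?_⟩
    rw [zpow_neg, zpow_natCast]
    exact (eq_inv_of_mul_eq_one_left h2).symm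

theorem ne_one_of_card {L Ω : Type} [Group L] [Fintype Ω] [DecidableEq Ω]
    (ψ : L →* alternatingGroup Ω) {B : ℕ} {x : L} (hB : 0 < B)
    (h : B ≤ (ψ x : Perm Ω).support.card) : ψ x ≠ 1 := by
  intro h1
  rw [h1] at h
  simp at h
  omega

theorem pf_pa : T_A1 → T_A2 → T_AF1 → T_AF2 → T_BP → T_NM → T_A5 → T_PA := by
  intro hA1 hA2 hAF1 hAF2 hBP hNM hA5 e
  obtain ⟨B0, hB0⟩ := hBP (e ^ 2)
  refine ⟨max B0 7, ?_⟩
  intro L Ω _ _ _ _ ψ hsurj hperf hsolv K V _ _ _ _ _ ρ hIrr M hMn hMker hMcomm hMns hfam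
  obtain ⟨Λ, _, _, _, W, hWind, hWsup, hWρ, hWne, htrans, hnt⟩ :=
    hA1 L K V ρ hIrr M hMn hMcomm hMns
  obtain ⟨x0⟩ : Nonempty Λ := hnt.to_nonempty
  have hSt : MulAction.stabilizer L x0 ≠ ⊤ := by
    intro htop
    obtain ⟨x1, hx1⟩ := exists_ne x0
    obtain ⟨y, hy⟩ := MulAction.exists_smul_eq L x0 x1
    have : y ∈ MulAction.stabilizer L x0 := by rw [htop]; exact Subgroup.mem_top y
    rw [MulAction.mem_stabilizer_iff, hy] at this
    exact hx1 this
  obtain ⟨M1, hM1, hStM1⟩ :=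
    (eq_top_or_exists_le_coatom (MulAction.stabilizer L x0)).resolve_left hSt
  have hStM : ∀ y : L, y • x0 = x0 → y ∈ M1 := fun y hy =>
    hStM1 (MulAction.mem_stabilizer_iff.2 hy)
  -- the size of `Ω`
  obtain ⟨q₀, p₀, a₀, h₀, -, hpair₀, hq₀K, hp₀K, hRel₀⟩ := hfam 2 Nat.prime_two
  have hcard : 7 ≤ Fintype.card Ω := by
    have h1 := (hpair_facts ψ hpair₀).1
    have h2 := Finset.card_le_univ (ψ a₀ : Perm Ω).support
    have h3 := le_max_right B0 7
    omega
  by_cases hker : ψ.ker ≤ M1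
  · -- the action on `Ω`
    obtain ⟨hq, hq5, hqe, hp, hpe, haq, hcomm, hhp, ha1, hz, hB⟩ := hpair₀
    have hpair₀' : HPair ψ e (max B0 7) q₀ p₀ a₀ h₀ :=
      ⟨hq, hq5, hqe, hp, hpe, haq, hcomm, hhp, ha1, hz, hB⟩
    obtain ⟨hf1, hf2⟩ := hpair_facts ψ hpair₀'
    have hmem : ∀ y ∈ M1, ((ψ y : alternatingGroup Ω) : Perm Ω) ∈
        (M1.map ψ).map (alternatingGroup Ω).subtype := by
      intro y hy
      exact Subgroup.mem_map_of_mem (alternatingGroup Ω).subtype (Subgroup.mem_map_of_mem ψ hy)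
    have hU1 : (M1.map ψ).map (alternatingGroup Ω).subtype < alternatingGroup Ω := by
      rw [lt_iff_le_and_ne]
      refine ⟨?_, ?_⟩
      · rintro _ ⟨y, -, rfl⟩
        exact y.2
      · intro heq
        apply hM1.1
        rw [eq_top_iff]
        intro y _
        have h1 : ((ψ y : alternatingGroup Ω) : Perm Ω) ∈
            (M1.map ψ).map (alternatingGroup Ω).subtype := by
          rw [heq]
          exact (ψ y).2
        obtain ⟨z, hz1, hz2⟩ := h1
        obtain ⟨m, hm1, hm2⟩ := hz1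
        have h2 : ψ m = ψ y := by
          rw [hm2]
          exact Subtype.ext hz2
        have h3 : m⁻¹ * y ∈ ψ.ker := by
          rw [MonoidHom.mem_ker, map_mul, map_inv, h2, inv_mul_cancel]
        have h4 := M1.mul_mem hm1 (hker h3)
        rwa [mul_inv_cancel_left] at h4
    have hTC : TCond q₀ (ψ a₀ : Perm Ω) (ψ h₀ : Perm Ω)
        ((M1.map ψ).map (alternatingGroup Ω).subtype) := by
      intro x hx
      obtain ⟨y, hy⟩ := hsurj ⟨x, hx⟩
      have hyx : (ψ y : Perm Ω) = x := by rw [hy]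
      rcases hA2 L Λ K V ρ W hWind hWρ hWne q₀ a₀ h₀ hq haq hRel₀ (y⁻¹ • x0) with h1 | h1
      · left
        have h2 : (y * a₀ * y⁻¹) • x0 = x0 := by
          rw [mul_smul, mul_smul, h1, smul_inv_smul]
        have h3 := hmem _ (hStM _ h2)
        rw [map_mul, map_mul, map_inv] at h3
        rw [← hyx]
        exact h3
      · right
        obtain ⟨κ, hκ, h1⟩ := h1
        refine ⟨κ, hκ, ?_⟩
        have h2 : (y * (h₀ * a₀ ^ κ) * y⁻¹) • x0 = x0 := by
          rw [mul_smul, mul_smul, h1, smul_inv_smul]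
        have h3 := hmem _ (hStM _ h2)
        rw [map_mul, map_mul, map_inv, map_mul, map_pow] at h3
        rw [← hyx]
        exact h3
    have hle : e ≤ e ^ 2 := by nlinarith
    have hLP : LPair (e ^ 2) B0 q₀ (q₀ * p₀) (ψ a₀ : Perm Ω) (ψ h₀ : Perm Ω) := by
      refine ⟨hq, hqe.trans hle, Nat.mul_pos hq.pos hp.pos, ?_, ?_, ?_, ?_, ?_, ?_⟩
      · rw [pow_two]
        exact Nat.mul_le_mul hqe hpe
      · have : (ψ a₀) ^ q₀ = 1 := by rw [← map_pow, haq, map_one]
        have h2 := congrArg (fun z : alternatingGroup Ω => (z : Perm Ω)) this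
        simpa using h2
      · have : (ψ h₀) ^ (q₀ * p₀) = 1 := by
          rw [← map_pow]
          rcases hhp with h1 | ⟨h1, h2⟩
          · rw [mul_comm, pow_mul, h1, one_pow, map_one]
          · rw [pow_mul, h2, h1, haq, map_one]
        have h2 := congrArg (fun z : alternatingGroup Ω => (z : Perm Ω)) this
        simpa using h2
      · have : ψ a₀ * ψ h₀ = ψ h₀ * ψ a₀ := by rw [← map_mul, hcomm, map_mul]
        have h2 := congrArg (fun z : alternatingGroup Ω => (z : Perm Ω)) this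
        simpa using h2
      · exact (le_max_left B0 7).trans hf1
      · intro κ _
        have h3 := (le_max_left B0 7).trans (hf2 κ)
        rw [map_mul, map_pow] at h3
        exact h3
    obtain ⟨ω₀, hω₀⟩ := hB0 Ω q₀ (q₀ * p₀) _ _ hLP _ hU1 hTC
    have hfix : ∀ y ∈ M1, (ψ y : Perm Ω) ω₀ = ω₀ := fun y hy => hω₀ _ (hmem y hy)
    have hch : ∀ x : Λ, ∃ y : L, y • x0 = x := fun x => MulAction.exists_smul_eq L x0 x
    choose Y hY using hch
    refine hA5 L Ω Λ ψ (by omega) hsurj hsolv K V ρ W hWind hWsup hWρ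
      (fun x => (ψ (Y x) : Perm Ω) ω₀) ?_ e q₀ p₀ a₀ h₀ ?_ hRel₀ e
    · intro y x
      have h1 : (Y (y • x))⁻¹ * (y * Y x) ∈ M1 := by
        apply hStM
        rw [mul_smul, mul_smul, hY x, inv_smul_eq_iff, hY (y • x)]
      have h2 := hfix _ h1
      rw [map_mul, map_inv, map_mul] at h2
      have h3 : (ψ (Y (y • x)) : Perm Ω)⁻¹ ((ψ y : Perm Ω) ((ψ (Y x) : Perm Ω) ω₀)) = ω₀ := h2
      rw [Equiv.Perm.inv_eq_iff_eq] at h3
      exact h3.symm
    · refine ⟨hq, hq5, hqe, hp, hpe, haq, hcomm, hhp, ha1, hz, ?_⟩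
      intro i j hij
      have h1 := hB i j hij
      have h2 := le_max_right B0 7
      omega
  · -- affine case
    exfalso
    obtain ⟨r, A, hr, hAn, hAc, hAp, hAcore, hAi, hAcov⟩ :=
      hAF1 L ψ.ker inferInstance hsolv M1 hM1 hker
    obtain ⟨q, p, a, h, hqr, hpair, hqK, hpK, hRel⟩ := hfam r hr
    obtain ⟨hf1, hf2⟩ := hpair_facts ψ hpair
    obtain ⟨hq, hq5, hqe, hp, hpe, haq, hcomm, hhp, ha1, hz, hB⟩ := hpair
    have h1 : ∀ x : L, x⁻¹ * a * x ∈ M1 ∨ ∃ κ < q, x⁻¹ * (h * a ^ κ) * x ∈ M1 := by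
      intro x
      rcases hA2 L Λ K V ρ W hWind hWρ hWne q a h hq haq hRel (x • x0) with h1 | h1
      · left
        apply hStM
        rw [mul_smul, mul_smul, h1, inv_smul_smul]
      · right
        obtain ⟨κ, hκ, h1⟩ := h1
        refine ⟨κ, hκ, ?_⟩
        apply hStM
        rw [mul_smul, mul_smul, h1, inv_smul_smul]
    have h2 := hAF2 L M1 A r hr hAn hAc hAp hAcore hAi hAcov q p a h hq (by omega) hp hqr haq
      hcomm hhp h1
    have h3 : ∃ x ∈ M1.normalCore, ψ x ≠ 1 := by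
      have hpos : 0 < max B0 7 := lt_of_lt_of_le (by norm_num) (le_max_right B0 7)
      rcases h2 with h2 | ⟨κ, -, h2⟩
      · exact ⟨a, h2, ne_one_of_card ψ hpos hf1⟩
      · exact ⟨_, h2, ne_one_of_card ψ hpos (hf2 κ)⟩
    have h4 := hNM L Ω ψ (by omega) hsurj hperf hsolv M1.normalCore inferInstance h3
    apply hM1.1
    rw [eq_top_iff, ← h4]
    exact Subgroup.normalCore_le M1

end Pool.Agent.H65.NY.PA
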