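import Pool.Agent.H11.NY.Targets

/-!
# Board `ny_modules`, module TC
-/

set_option autoImplicit false

open Equiv (Perm)

namespace Pool.Agent.H65.NY.TC

open Pool.Agent.H11.NY

theorem mem_of_support {Ω : Type} [Fintype Ω] [DecidableEq Ω] {w : Perm Ω} {S : Finset Ω}
    (h : w.support ⊆ S) {i : Ω} (hi : i ∈ S) : w i ∈ S := by
  by_cases hf : w i = i
  · rw [hf]; exact hi
  · apply h
    rw [Equiv.Perm.mem_support]
    intro h2
    exact hf (w.injective h2)

theorem fix_of_support {Ω : Type} [Fintype Ω] [DecidableEq Ω] {w : Perm Ω} {S : Finset Ω}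
    (h : w.support ⊆ S) {i : Ω} (hi : i ∉ S) : w i = i := by
  by_contra hf
  exact hi (h (Equiv.Perm.mem_support.2 hf))

theorem pf_tc : T_TC := by
  intro k₀
  refine ⟨k₀ + (k₀ + 1) ^ k₀ * k₀ + 1, ?_⟩
  intro Ω _ _ U hcard hU
  classical
  -- a maximal set without supports
  obtain ⟨I, hI1, hI2⟩ : ∃ I : Finset Ω, (∀ u ∈ U, u.support ⊆ I → u = 1) ∧
      ∀ J : Finset Ω, (∀ u ∈ U, u.support ⊆ J → u = 1) → J.card ≤ I.card := by
    have hne : (Finset.univ.filter
        (fun I : Finset Ω => ∀ u ∈ U, u.support ⊆ I → u = 1)).Nonempty := by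
      refine ⟨∅, ?_⟩
      rw [Finset.mem_filter]
      refine ⟨Finset.mem_univ _, ?_⟩
      intro u _ h
      exact Equiv.Perm.support_eq_empty_iff.1 (Finset.subset_empty.1 h)
    obtain ⟨I, hI, hmax⟩ := Finset.exists_max_image _ Finset.card hne
    refine ⟨I, (Finset.mem_filter.1 hI).2, ?_⟩
    intro J hJ
    exact hmax J (Finset.mem_filter.2 ⟨Finset.mem_univ _, hJ⟩)
  have hIk : I.card < k₀ := by
    by_contra hcon
    obtain ⟨u, hu, hu1, hus⟩ := hU I (not_lt.1 hcon)
    exact hu1 (hI1 u hu hus)
  have hw : ∀ x : Ω, x ∉ I → ∃ w ∈ U, w.support ⊆ insert x I ∧ w x ∈ I ∧ w⁻¹ x ∈ I := by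
    intro x hx
    have h1 : ¬ ∀ u ∈ U, u.support ⊆ insert x I → u = 1 := by
      intro h
      have := hI2 _ h
      rw [Finset.card_insert_of_notMem hx] at this
      omega
    push Not at h1
    obtain ⟨w, hwU, hws, hw1⟩ := h1
    have hwx : w x ≠ x := by
      intro h
      apply hw1
      apply hI1 w hwU
      intro z hz
      have := hws hz
      rw [Finset.mem_insert] at this
      rcases this with rfl | h3
      · exact absurd h (Equiv.Perm.mem_support.1 hz)
      · exact h3
    refine ⟨w, hwU, hws, ?_, ?_⟩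
    · have := mem_of_support hws (Finset.mem_insert_self x I)
      rw [Finset.mem_insert] at this
      exact this.resolve_left hwx
    · have hws' : (w⁻¹).support ⊆ insert x I := by
        rw [Equiv.Perm.support_inv]; exact hws
      have := mem_of_support hws' (Finset.mem_insert_self x I)
      rw [Finset.mem_insert] at this
      refine this.resolve_left ?_
      intro h
      apply hwx
      have h4 := congrArg w h
      have h5 : w (w⁻¹ x) = x := Equiv.apply_symm_apply w x
      rw [h5] at h4
      exact h4.symm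
  choose! w hwU hws hwx hwi using hw
  -- types
  let F : {x // x ∉ I} → (I → Option I) × I := fun x =>
    (fun i => if h : w x.1 i.1 ∈ I then some ⟨w x.1 i.1, h⟩ else none, ⟨w x.1 x.1, hwx x.1 x.2⟩)
  have hlt : Fintype.card ((I → Option I) × I) < Fintype.card {x // x ∉ I} := by
    rw [Fintype.card_prod, Fintype.card_fun, Fintype.card_option, Fintype.card_coe,
      Fintype.card_subtype_compl, Fintype.card_coe]
    have h1 : (I.card + 1) ^ I.card * I.card ≤ (k₀ + 1) ^ k₀ * k₀ := by
      apply Nat.mul_le_mul _ hIk.le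
      calc (I.card + 1) ^ I.card ≤ (k₀ + 1) ^ I.card := Nat.pow_le_pow_left (by omega) _
        _ ≤ (k₀ + 1) ^ k₀ := Nat.pow_le_pow_right (by omega) hIk.le
    omega
  obtain ⟨⟨x, hx⟩, ⟨y, hy⟩, hne, hF⟩ := Fintype.exists_ne_map_eq_of_card_lt F hlt
  have hxy : x ≠ y := fun h => hne (Subtype.ext h)
  have hF1 := congrArg Prod.fst hF
  have hF2 := congrArg Prod.snd hF
  simp only [F, Subtype.mk.injEq] at hF2
  -- the two elements are conjugate by the transposition
  have hconj : w y = Equiv.swap x y * w x * Equiv.swap x y := by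
    have hout : ∀ z : Ω, z ∈ I → z ≠ x ∧ z ≠ y := by
      intro z hz
      exact ⟨fun h => hx (h ▸ hz), fun h => hy (h ▸ hz)⟩
    ext z
    simp only [Equiv.Perm.mul_apply]
    by_cases hz : z ∈ I
    · obtain ⟨hzx, hzy⟩ := hout z hz
      rw [Equiv.swap_apply_of_ne_of_ne hzx hzy]
      have hT := congrFun hF1 ⟨z, hz⟩
      simp only [F] at hT
      by_cases h1 : w x z ∈ I
      · by_cases h2 : w y z ∈ I
        · rw [dif_pos h1, dif_pos h2] at hT
          have h3 : w x z = w y z := by
            have := Option.some.inj hT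
            exact congrArg Subtype.val this
          rw [Equiv.swap_apply_of_ne_of_ne (hout _ h1).1 (hout _ h1).2, h3]
        · rw [dif_pos h1, dif_neg h2] at hT
          exact absurd hT (by simp)
      · by_cases h2 : w y z ∈ I
        · rw [dif_neg h1, dif_pos h2] at hT
          exact absurd hT (by simp)
        · have h3 := mem_of_support (hws x hx) (Finset.mem_insert_of_mem hz)
          have h4 := mem_of_support (hws y hy) (Finset.mem_insert_of_mem hz)
          rw [Finset.mem_insert] at h3 h4
          rw [h3.resolve_right h1, h4.resolve_right h2, Equiv.swap_apply_left]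
    · by_cases hzy : z = y
      · subst hzy
        rw [Equiv.swap_apply_right, ← hF2, Equiv.swap_apply_of_ne_of_ne]
        · exact (hout _ (hwx x hx)).1
        · exact (hout _ (hwx x hx)).2
      · have h5 : w y z = z := by
          apply fix_of_support (hws y hy)
          rw [Finset.mem_insert]
          push Not
          exact ⟨hzy, hz⟩
        rw [h5]
        by_cases hzx : z = x
        · subst hzx
          rw [Equiv.swap_apply_left]
          have h6 : w z y = y := by
            apply fix_of_support (hws z hz)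
            rw [Finset.mem_insert]
            push Not
            exact ⟨fun h => hxy h.symm, hy⟩
          rw [h6, Equiv.swap_apply_right]
        · rw [Equiv.swap_apply_of_ne_of_ne hzx hzy]
          have h6 : w x z = z := by
            apply fix_of_support (hws x hx)
            rw [Finset.mem_insert]
            push Not
            exact ⟨hzx, hz⟩
          rw [h6, Equiv.swap_apply_of_ne_of_ne hzx hzy]
  refine ⟨(w x)⁻¹ * w y, U.mul_mem (U.inv_mem (hwU x hx)) (hwU y hy), ?_⟩
  have hwy : (w x)⁻¹ y = y := by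
    rw [Equiv.Perm.inv_eq_iff_eq]
    symm
    apply fix_of_support (hws x hx)
    rw [Finset.mem_insert]
    push Not
    exact ⟨fun h => hxy h.symm, hy⟩
  have hu : (w x)⁻¹ * w y = Equiv.swap y ((w x)⁻¹ x) * Equiv.swap y x := by
    have h1 : (w x)⁻¹ * Equiv.swap x y * w x = Equiv.swap ((w x)⁻¹ x) ((w x)⁻¹ y) := by
      have := Equiv.swap_apply_apply (w x)⁻¹ x y
      rw [inv_inv] at this
      exact this.symm
    rw [hconj]
    calc (w x)⁻¹ * (Equiv.swap x y * w x * Equiv.swap x y)
        = ((w x)⁻¹ * Equiv.swap x y * w x) * Equiv.swap x y := by group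
      _ = Equiv.swap y ((w x)⁻¹ x) * Equiv.swap y x := by
          rw [h1, hwy, Equiv.swap_comm _ y, Equiv.swap_comm x y]
  rw [hu]
  apply Equiv.Perm.isThreeCycle_swap_mul_swap_same
  · exact fun h => hy (by rw [h]; exact hwi x hx)
  · exact fun h => hxy h.symm
  · exact fun h => hx (by rw [← h]; exact hwi x hx)

end Pool.Agent.H65.NY.TC
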